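import Pool.Agent.helper50.PHN.Spec

/-!
# Row phn:STB (project PHN, MP_f10000_nt): the bad classes of the stage `q`
-/

set_option autoImplicit false

namespace Pool.Agent.PHN

open Finset

theorem STB_mu_le (T : ℕ) (f g : ℤ → ℝ) (h : ∀ x, f x ≤ g x) : mu T f ≤ mu T g := by
  unfold mu
  exact div_le_div_of_nonneg_right (Finset.sum_le_sum fun x _ => h _) (Nat.cast_nonneg T)

theorem STB_mu_sum {ι : Type} (T : ℕ) (s : Finset ι) (F : ι → ℤ → ℝ) :
    mu T (fun x => ∑ i ∈ s, F i x) = ∑ i ∈ s, mu T (F i) := by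
  unfold mu
  rw [Finset.sum_comm, Finset.sum_div]

theorem STB_mu_mul (T : ℕ) (c : ℝ) (f : ℤ → ℝ) : mu T (fun x => c * f x) = c * mu T f := by
  unfold mu
  rw [← Finset.mul_sum, mul_div_assoc]

theorem STB_AV_le (Q u : ℕ) (f g : ℤ → ℝ) (h : ∀ x, f x ≤ g x) (x : ℤ) : AV Q u f x ≤ AV Q u g x := by
  unfold AV
  exact div_le_div_of_nonneg_right (Finset.sum_le_sum fun t _ => h _) (Nat.cast_nonneg Q)

theorem STB_AV_sum {ι : Type} (Q u : ℕ) (s : Finset ι) (F : ι → ℤ → ℝ) (x : ℤ) :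
    AV Q u (fun y => ∑ i ∈ s, F i y) x = ∑ i ∈ s, AV Q u (F i) x := by
  unfold AV
  rw [Finset.sum_comm, Finset.sum_div]

theorem STB_ind_nonneg (n : ℕ) (a x : ℤ) : 0 ≤ ind n a x := by
  unfold ind
  split_ifs <;> norm_num

theorem STB_lp_dvd {m q : ℕ} (hq : q.Prime) (h : lp m = q) : q ∣ m := by
  unfold lp at h
  rcases Finset.eq_empty_or_nonempty m.primeFactors with he | he
  · rw [he, Finset.sup_empty] at h
    exact absurd h.symm hq.ne_zero
  · obtain ⟨p, hp, hp2⟩ := Finset.exists_mem_eq_sup m.primeFactors he id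
    rw [h] at hp2
    rw [hp2]
    exact Nat.dvd_of_mem_primeFactors hp

theorem STB_gg_mono (δ : ℕ → ℝ) (q0 m' m : ℕ) (hm : m ≠ 0) (hd : m' ∣ m) (hδ : ∀ p, q0 ≤ p → 0 < δ p) :
    1 ≤ gg δ q0 m' ∧ gg δ q0 m' ≤ gg δ q0 m := by
  have h1 : ∀ s : Finset ℕ, (∀ p ∈ s, q0 ≤ p) → (1 : ℝ) ≤ ∏ p ∈ s, (1 + 2 * δ p) := by
    intro s hs
    have h2 : ∏ p ∈ s, (1 : ℝ) ≤ ∏ p ∈ s, (1 + 2 * δ p) := by
      apply Finset.prod_le_prod
      · intro i _
        norm_num
      · intro i hi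
        have h3 := hδ i (hs i hi)
        linarith
    rwa [Finset.prod_const_one] at h2
  constructor
  · unfold gg
    exact h1 _ fun p hp => (Finset.mem_filter.mp hp).2
  · unfold gg
    have hsub : m'.primeFactors.filter (fun p => q0 ≤ p) ⊆ m.primeFactors.filter (fun p => q0 ≤ p) :=
      Finset.filter_subset_filter _ (Nat.primeFactors_mono hd hm)
    rw [← Finset.prod_sdiff hsub]
    have h3 := h1 (m.primeFactors.filter (fun p => q0 ≤ p) \ m'.primeFactors.filter (fun p => q0 ≤ p)) fun p hp =>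
      (Finset.mem_filter.mp (Finset.mem_sdiff.mp hp).1).2
    have h4 := h1 (m'.primeFactors.filter (fun p => q0 ≤ p)) fun p hp => (Finset.mem_filter.mp hp).2
    nlinarith

theorem STB (hSTA : STA_stmt) (hALP : ALP_stmt) (hUUD : UUD_stmt) (hMAV : MAV_stmt) (hCLA : CLA_stmt) (hPRI : PRI_stmt) :
    STB_stmt := by
  classical
  intro D q w hq hq0 hI
  obtain ⟨hU1, hU2⟩ := hUUD
  obtain ⟨hT, hW, hmT, hWu, hmu, hpl⟩ := hU2 D
  obtain ⟨hB, hal, hB2, hal2, hal3⟩ := hALP D q hq hq0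
  have hB1 := fun x => (hB x).1
  have hB01 := fun x => (hB x).2
  obtain ⟨hQu, hqu, hnu⟩ := hU1 D.T q hT hq
  have hδ : 0 < D.δ q := D.dpos q hq0
  have hM := hMAV D.T (q ^ D.T.factorization q) (uu D.T q) (fun x => w x * (if D.al q x ≤ D.δ q then 0 else 1)) (D.iB q) hT hQu
    (fun x => by simp only [hI.per x, hal x]) hB1
  have hM3 := hM.2.2 (fun x => by simp only [hI.inv q hq le_rfl x, hal2 q hq le_rfl x])
  -- first step
  have e1 : mu D.T (fun x => D.nw q w x * D.iB q x) =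
      mu D.T (fun x => w x * (if D.al q x ≤ D.δ q then 0 else 1) * D.iB q x) := by
    have : (fun x => D.nw q w x * D.iB q x) = (fun x => w x * (if D.al q x ≤ D.δ q then 0 else 1) * D.iB q x) := by
      funext x
      unfold Sys.nw
      by_cases h : D.al q x ≤ D.δ q
      · rw [if_pos h, if_pos h]
        rcases hB01 x with h0 | h0
        · rw [h0]; ring
        · rw [h0]; ring
      · rw [if_neg h, if_neg h]
        ring
    rw [this]
  rw [e1, hM3]
  -- the bound of al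
  set F := D.good.filter (fun i => lp (D.m i) = q) with hF
  set m' : ℕ → ℕ := fun i => D.m i / q ^ (D.m i).factorization q with hm'
  have hfac : ∀ i, m' i * q ^ (D.m i).factorization q = D.m i := by
    intro i
    exact Nat.div_mul_cancel (Nat.ordProj_dvd (D.m i) q)
  have hFS : ∀ i ∈ F, i ∈ D.S := fun i hi => D.gS (Finset.mem_filter.mp hi).1
  have hFl : ∀ i ∈ F, lp (D.m i) = q := fun i hi => (Finset.mem_filter.mp hi).2
  have hm1 : ∀ i ∈ F, 1 ≤ D.m i := fun i hi => D.mpos i (hFS i hi)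
  have hqm' : ∀ i ∈ F, ¬ q ∣ m' i := fun i hi => Nat.not_dvd_ordCompl hq (by have := hm1 i hi; omega)
  have hm'd : ∀ i, m' i ∣ D.m i := fun i => ⟨_, (hfac i).symm⟩
  have hm'0 : ∀ i ∈ F, 1 ≤ m' i := by
    intro i hi
    rcases Nat.eq_zero_or_pos (m' i) with h0 | h0
    · have h1 := hfac i
      rw [h0, zero_mul] at h1
      have := hm1 i hi
      omega
    · exact h0
  have hCl : ∀ i ∈ F, ∀ x, AV (q ^ D.T.factorization q) (uu D.T q) (ind (D.m i) (D.c i)) x =
      ind (m' i) (D.c i) x / (q : ℝ) ^ (D.m i).factorization q := by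
    intro i hi x
    have h1 := hCLA D.T q (m' i) ((D.m i).factorization q) (D.c i) x hT hq (hqm' i hi)
      (by rw [hfac i]; exact hmT i (hFS i hi))
    rw [hfac i] at h1
    exact h1
  have hiB : ∀ x, D.iB q x ≤ ∑ i ∈ F, ind (D.m i) (D.c i) x := by
    intro x
    unfold Sys.iB
    split_ifs with h
    · obtain ⟨i, hi, hl, hd⟩ := h
      have hiF : i ∈ F := Finset.mem_filter.mpr ⟨hi, hl⟩
      have h1 : ind (D.m i) (D.c i) x = 1 := by
        unfold ind
        rw [if_pos hd]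
      rw [← h1]
      exact Finset.single_le_sum (f := fun i => ind (D.m i) (D.c i) x) (fun j _ => STB_ind_nonneg _ _ _) hiF
    · exact Finset.sum_nonneg fun j _ => STB_ind_nonneg _ _ _
  have hAl : ∀ x, D.al q x ≤ ∑ i ∈ F, ind (m' i) (D.c i) x / (q : ℝ) ^ (D.m i).factorization q := by
    intro x
    have h1 : D.al q x ≤ AV (q ^ D.T.factorization q) (uu D.T q) (fun y => ∑ i ∈ F, ind (D.m i) (D.c i) y) x :=
      STB_AV_le _ _ _ _ hiB x
    rw [STB_AV_sum] at h1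
    rw [Finset.sum_congr rfl (fun i hi => hCl i hi x)] at h1
    exact h1
  -- pointwise bound
  have hq1 : (0 : ℝ) < q := by exact_mod_cast hq.pos
  have hpt : ∀ x, w x * (if D.al q x ≤ D.δ q then 0 else 1) * AV (q ^ D.T.factorization q) (uu D.T q) (D.iB q) x ≤
      (D.δ q)⁻¹ * ∑ i ∈ F, ∑ j ∈ F, (((q : ℝ) ^ (D.m i).factorization q)⁻¹ * ((q : ℝ) ^ (D.m j).factorization q)⁻¹) *
        (w x * (ind (m' i) (D.c i) x * ind (m' j) (D.c j) x)) := by
    intro x
    have h1 : AV (q ^ D.T.factorization q) (uu D.T q) (D.iB q) x = D.al q x := rfl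
    rw [h1]
    have h2 : ∑ i ∈ F, ∑ j ∈ F, (((q : ℝ) ^ (D.m i).factorization q)⁻¹ * ((q : ℝ) ^ (D.m j).factorization q)⁻¹) *
        (w x * (ind (m' i) (D.c i) x * ind (m' j) (D.c j) x)) =
        w x * (∑ i ∈ F, ind (m' i) (D.c i) x / (q : ℝ) ^ (D.m i).factorization q) ^ 2 := by
      rw [sq, Finset.sum_mul_sum, Finset.mul_sum]
      refine Finset.sum_congr rfl fun i _ => ?_
      rw [Finset.mul_sum]
      refine Finset.sum_congr rfl fun j _ => ?_
      rw [div_eq_mul_inv, div_eq_mul_inv]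
      ring
    rw [h2]
    have h3 := hI.nonneg x
    have h4 := hal3 x
    have h5 := hAl x
    have h6 : (if D.al q x ≤ D.δ q then (0 : ℝ) else 1) * D.al q x ≤
        (D.δ q)⁻¹ * (∑ i ∈ F, ind (m' i) (D.c i) x / (q : ℝ) ^ (D.m i).factorization q) ^ 2 := by
      have h7 : (D.al q x) ^ 2 ≤ (∑ i ∈ F, ind (m' i) (D.c i) x / (q : ℝ) ^ (D.m i).factorization q) ^ 2 :=
        pow_le_pow_left₀ h4.1 h5 2
      have h8 : (D.δ q)⁻¹ * (D.al q x) ^ 2 ≤ (D.δ q)⁻¹ *
          (∑ i ∈ F, ind (m' i) (D.c i) x / (q : ℝ) ^ (D.m i).factorization q) ^ 2 :=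
        mul_le_mul_of_nonneg_left h7 (inv_nonneg.mpr hδ.le)
      refine le_trans ?_ h8
      split_ifs with h
      · rw [zero_mul]
        positivity
      · have h9 : D.δ q < D.al q x := not_le.mp h
        rw [one_mul, inv_mul_eq_div, le_div_iff₀ hδ, sq]
        exact mul_le_mul_of_nonneg_left h9.le h4.1
    calc w x * (if D.al q x ≤ D.δ q then 0 else 1) * D.al q x
        = w x * ((if D.al q x ≤ D.δ q then (0 : ℝ) else 1) * D.al q x) := by ring
      _ ≤ w x * ((D.δ q)⁻¹ * (∑ i ∈ F, ind (m' i) (D.c i) x / (q : ℝ) ^ (D.m i).factorization q) ^ 2) :=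
        mul_le_mul_of_nonneg_left h6 h3
      _ = _ := by ring
  refine le_trans (STB_mu_le _ _ _ hpt) ?_
  rw [STB_mu_mul, STB_mu_sum]
  have e2 : ∀ i ∈ F, mu D.T (fun x => ∑ j ∈ F, (((q : ℝ) ^ (D.m i).factorization q)⁻¹ * ((q : ℝ) ^ (D.m j).factorization q)⁻¹) *
        (w x * (ind (m' i) (D.c i) x * ind (m' j) (D.c j) x))) =
      ∑ j ∈ F, (((q : ℝ) ^ (D.m i).factorization q)⁻¹ * ((q : ℝ) ^ (D.m j).factorization q)⁻¹) *
        mu D.T (fun x => w x * (ind (m' i) (D.c i) x * ind (m' j) (D.c j) x)) := by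
    intro i _
    rw [STB_mu_sum]
    refine Finset.sum_congr rfl fun j _ => ?_
    rw [STB_mu_mul]
  rw [Finset.sum_congr rfl e2, Finset.mul_sum]
  unfold DS
  rw [← hF, Finset.mul_sum]
  refine Finset.sum_le_sum fun i hi => ?_
  rw [Finset.mul_sum, Finset.mul_sum]
  refine Finset.sum_le_sum fun j hj => ?_
  -- termwise
  have hpr : ∀ i ∈ F, ∀ p ∈ (m' i).primeFactors, p < q := by
    intro i hi p hp
    have hpp := Nat.prime_of_mem_primeFactors hp
    have hpd := Nat.dvd_of_mem_primeFactors hp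
    have h1 : p ∈ (D.m i).primeFactors :=
      Nat.mem_primeFactors.mpr ⟨hpp, hpd.trans (hm'd i), by have := hm1 i hi; omega⟩
    have h2 := hpl i (hFS i hi) p h1
    rw [hFl i hi] at h2
    rcases lt_or_eq_of_le h2 with h3 | h3
    · exact h3
    · exact absurd (h3 ▸ hpd) (hqm' i hi)
  have hP := hPRI D q w hI (m' i) (m' j) (D.c i) (D.c j) (hm'0 i hi) (hm'0 j hj)
    ((hm'd i).trans (hmT i (hFS i hi))) ((hm'd j).trans (hmT j (hFS j hj))) (hpr i hi) (hpr j hj)
  have gi := STB_gg_mono D.δ D.q0 (m' i) (D.m i) (by have := hm1 i hi; omega) (hm'd i) D.dpos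
  have gj := STB_gg_mono D.δ D.q0 (m' j) (D.m j) (by have := hm1 j hj; omega) (hm'd j) D.dpos
  have hqi : ∀ i ∈ F, q * m' i ∣ D.m i := by
    intro i hi
    have h1 : q ∣ D.m i := STB_lp_dvd hq (hFl i hi)
    have h2 : 1 ≤ (D.m i).factorization q :=
      (hq.dvd_iff_one_le_factorization (by have := hm1 i hi; omega)).mp h1
    have h3 : q ∣ q ^ (D.m i).factorization q := dvd_pow_self q (by omega)
    have h4 := Nat.mul_dvd_mul_left (m' i) h3
    rw [hfac i] at h4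
    rwa [mul_comm] at h4
  have hg : q * Nat.gcd (m' i) (m' j) ∣ Nat.gcd (D.m i) (D.m j) := by
    apply Nat.dvd_gcd
    · exact (Nat.mul_dvd_mul_left q (Nat.gcd_dvd_left _ _)).trans (hqi i hi)
    · exact (Nat.mul_dvd_mul_left q (Nat.gcd_dvd_right _ _)).trans (hqi j hj)
  have hg2 : (q : ℝ) * (Nat.gcd (m' i) (m' j) : ℝ) ≤ (Nat.gcd (D.m i) (D.m j) : ℝ) := by
    have h1 : q * Nat.gcd (m' i) (m' j) ≤ Nat.gcd (D.m i) (D.m j) :=
      Nat.le_of_dvd (Nat.gcd_pos_of_pos_left _ (hm1 i hi)) hg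
    exact_mod_cast h1
  have ci : (D.m i : ℝ) = (m' i : ℝ) * (q : ℝ) ^ (D.m i).factorization q := by
    have := hfac i
    exact_mod_cast this.symm
  have cj : (D.m j : ℝ) = (m' j : ℝ) * (q : ℝ) ^ (D.m j).factorization q := by
    have := hfac j
    exact_mod_cast this.symm
  have pi1 : (0 : ℝ) < m' i := by exact_mod_cast hm'0 i hi
  have pj1 : (0 : ℝ) < m' j := by exact_mod_cast hm'0 j hj
  have qi1 : (0 : ℝ) < (q : ℝ) ^ (D.m i).factorization q := pow_pos hq1 _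
  have qj1 : (0 : ℝ) < (q : ℝ) ^ (D.m j).factorization q := pow_pos hq1 _
  have hW0 : (0 : ℝ) ≤ D.W := Nat.cast_nonneg _
  set ai := (q : ℝ) ^ (D.m i).factorization q
  set aj := (q : ℝ) ^ (D.m j).factorization q
  calc (D.δ q)⁻¹ * (ai⁻¹ * aj⁻¹ * mu D.T (fun x => w x * (ind (m' i) (D.c i) x * ind (m' j) (D.c j) x)))
      ≤ (D.δ q)⁻¹ * (ai⁻¹ * aj⁻¹ * (D.W * (gg D.δ D.q0 (m' i) * gg D.δ D.q0 (m' j) * (Nat.gcd (m' i) (m' j) : ℝ) /
          (m' i * m' j)))) := by
        refine mul_le_mul_of_nonneg_left (mul_le_mul_of_nonneg_left hP ?_) (inv_nonneg.mpr hδ.le)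
        positivity
    _ = D.W * (gg D.δ D.q0 (m' i) * gg D.δ D.q0 (m' j) * ((q : ℝ) * (Nat.gcd (m' i) (m' j) : ℝ))) /
          (q * D.δ q * (D.m i * D.m j)) := by
        rw [ci, cj]
        field_simp
    _ ≤ D.W * (gg D.δ D.q0 (D.m i) * gg D.δ D.q0 (D.m j) * (Nat.gcd (D.m i) (D.m j) : ℝ)) /
          (q * D.δ q * (D.m i * D.m j)) := by
        have pim : (0 : ℝ) < D.m i := by rw [ci]; exact mul_pos pi1 qi1
        have pjm : (0 : ℝ) < D.m j := by rw [cj]; exact mul_pos pj1 qj1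
        refine div_le_div_of_nonneg_right (mul_le_mul_of_nonneg_left ?_ hW0) (by positivity)
        refine mul_le_mul (mul_le_mul gi.2 gj.2 (by linarith [gj.1]) (by linarith [gi.1, gi.2])) hg2 (by positivity) ?_
        exact mul_nonneg (by linarith [gi.1, gi.2]) (by linarith [gj.1, gj.2])
    _ = _ := by ring

end Pool.Agent.PHN
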